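import Mathlib
import Pool.Agent.HuaPerf2.Key2

/-!
Vector fields of a Hua system of exponent two which vanish on a two-point field: translations,
the inversion, and the relations between them.
-/

set_option autoImplicit false

namespace Pool.Agent.HuaFd10

open Pool.Agent.HuaTop84 Pool.Agent.HuaVal Pool.Agent.HuaOne84 Pool.Agent.HuaDom91
  Pool.Agent.HuaPerf2

variable {A : Type} [AddCommGroup A] {L : Type} [Field L]

/-- The image of the field `L` is a part of the system. -/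
structure Part (H : HS A) (φ : L →+ A) : Prop where
  inj : Function.Injective φ
  inv : ∀ u, H.inv (φ u) = φ u⁻¹
  U : ∀ u v, H.U (φ u) (φ v) = φ (u * u * v)

/-- translation of functions -/
def TT (a : A) (v : A → A) : A → A := fun u => v (u + a)

/-- inversion of functions -/
def II (H : HS A) (v : A → A) : A → A := fun u => H.U u (v (H.inv u))

/-- functions which vanish on the field -/
def V0 (φ : L →+ A) : AddSubgroup (A → A) where
  carrier := {v | ∀ l, v (φ l) = 0}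
  zero_mem' := fun _ => rfl
  add_mem' := fun {v w} hv hw l => by
    change v (φ l) + w (φ l) = 0
    rw [hv l, hw l, add_zero]
  neg_mem' := fun {v} hv l => by
    change -(v (φ l)) = 0
    rw [hv l, neg_zero]

variable {H : HS A} {φ : L →+ A}

theorem TT_add (a : A) (v w : A → A) : TT a (v + w) = TT a v + TT a w := rfl

theorem TT_sub (a : A) (v w : A → A) : TT a (v - w) = TT a v - TT a w := rfl

theorem TT_TT (a b : A) (v : A → A) : TT a (TT b v) = TT (a + b) v := by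
  funext u
  change v (u + a + b) = v (u + (a + b))
  rw [add_assoc]

theorem TT_zero (v : A → A) : TT 0 v = v := by
  funext u
  change v (u + 0) = v u
  rw [add_zero]

theorem II_add (v w : A → A) : II H (v + w) = II H v + II H w := by
  funext u
  exact map_add _ _ _

theorem II_sub (v w : A → A) : II H (v - w) = II H v - II H w := by
  funext u
  exact map_sub _ _ _

theorem V0_TT {v : A → A} (hv : v ∈ V0 φ) (x : L) : TT (φ x) v ∈ V0 φ := by
  intro l
  change v (φ l + φ x) = 0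
  rw [← map_add]
  exact hv _

theorem V0_zero {v : A → A} (hv : v ∈ V0 φ) : v 0 = 0 := by
  have h := hv 0
  rwa [map_zero] at h

theorem V0_II (hφ : Part H φ) {v : A → A} (hv : v ∈ V0 φ) : II H v ∈ V0 φ := by
  intro l
  change H.U (φ l) (v (H.inv (φ l))) = 0
  rw [hφ.inv, hv, map_zero]

theorem II_II {v : A → A} (hv : v ∈ V0 φ) : II H (II H v) = v := by
  funext u
  change H.U u (H.U (H.inv u) (v (H.inv (H.inv u)))) = v u
  rw [H.inv_inv]
  by_cases hu : u = 0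
  · rw [hu, V0_zero hv, map_zero, map_zero]
  · exact H.U_inv_right u _ hu

/-- outside the field -/
def Out (φ : L →+ A) (u : A) : Prop := ∀ l, u ≠ φ l

theorem Out.ne {u : A} (hu : Out φ u) : u ≠ 0 := by
  have h := hu 0
  rwa [map_zero] at h

theorem Out.add {u : A} (hu : Out φ u) (x : L) : Out φ (u + φ x) := by
  intro l h
  apply hu (l - x)
  rw [map_sub, ← h]
  abel

theorem Out.inv (hφ : Part H φ) {u : A} (hu : Out φ u) : Out φ (H.inv u) := by
  intro l h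
  apply hu l⁻¹
  rw [← hφ.inv, ← h, H.inv_inv]

/-- The sum formula, in the form used here. -/
theorem sum_form (hφ : Part H φ) (h2 : ∀ x : A, x + x = 0) {u : A} (hu : Out φ u) {x : L}
    (hx : x ≠ 0) (z : A) :
    H.U (u + φ x) (H.U (H.inv (u + φ x) + φ x⁻¹) z) = H.U u (H.U (φ x⁻¹) z) := by
  have hx0 : φ x ≠ 0 := fun h0 => hx (hφ.inj (by rw [h0, map_zero]))
  have e : u + φ x + φ x = u := by rw [add_assoc, h2, add_zero]
  have h3 := H.sum (u + φ x) (φ x) (H.U (H.inv (φ x)) z) (hu.add x).ne hx0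
    (by rw [e]; exact hu.ne)
  rw [e, H.U_inv_right _ _ hx0, hφ.inv] at h3
  exact h3.symm

/-- The inverse of the argument. -/
theorem arg_form (hφ : Part H φ) (h2 : ∀ x : A, x + x = 0) {u : A} (hu : Out φ u) {x : L}
    (hx : x ≠ 0) :
    H.inv (H.inv (u + φ x) + φ x⁻¹) = φ x + H.U (φ x) (H.inv u) := by
  have hx0 : φ x ≠ 0 := fun h0 => hx (hφ.inj (by rw [h0, map_zero]))
  have e : u + φ x + φ x = u := by rw [add_assoc, h2, add_zero]
  have h3 := inv_inv_add H (hu.add x).ne hx0 (by rw [e]; exact hu.ne)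
  rw [e, hφ.inv, sub2 h2] at h3
  exact h3

/-- The relation between translations and the inversion. -/
theorem braid (hφ : Part H φ) (h2 : ∀ x : A, x + x = 0) {v : A → A} (hv : v ∈ V0 φ) {k y : L}
    (hk : k ≠ 0) :
    II H (TT (φ y) (II H (TT (φ k) v))) =
      TT (φ k) (II H (TT (φ k⁻¹) (II H (TT (φ (k * k * y)) (II H (TT (φ k⁻¹) (II H v))))))) := by
  funext u
  by_cases hu : Out φ u
  swap
  · unfold Out at hu
    push Not at hu
    obtain ⟨l, rfl⟩ := hu
    have h3 := V0_II hφ (V0_TT (V0_II hφ (V0_TT hv k)) y) l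
    have h4 := V0_TT (V0_II hφ (V0_TT (V0_II hφ (V0_TT (V0_II hφ (V0_TT (V0_II hφ hv) k⁻¹))
      (k * k * y))) k⁻¹)) k l
    exact h3.trans h4.symm
  have hk0 : φ k ≠ 0 := fun h0 => hk (hφ.inj (by rw [h0, map_zero]))
  have hki : φ k⁻¹ ≠ 0 := fun h0 => inv_ne_zero hk (hφ.inj (by rw [h0, map_zero]))
  set s := H.inv u + φ y with hs
  have hsO : Out φ s := (hu.inv hφ).add y
  change H.U u (H.U s (v (H.inv s + φ k))) =
    H.U (u + φ k) (H.U (H.inv (u + φ k) + φ k⁻¹)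
      (H.U (H.inv (H.inv (u + φ k) + φ k⁻¹) + φ (k * k * y))
        (H.U (H.inv (H.inv (H.inv (u + φ k) + φ k⁻¹) + φ (k * k * y)) + φ k⁻¹)
          (v (H.inv (H.inv (H.inv (H.inv (u + φ k) + φ k⁻¹) + φ (k * k * y)) + φ k⁻¹))))))
  rw [sum_form hφ h2 hu hk, arg_form hφ h2 hu hk]
  have e2 : φ k + H.U (φ k) (H.inv u) + φ (k * k * y) = H.U (φ k) (s + φ k⁻¹) := by
    rw [hs, map_add, map_add, hφ.U, hφ.U]
    have e3 : k * k * k⁻¹ = k := by field_simp
    rw [e3]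
    abel
  rw [e2]
  have e4 : H.inv (H.U (φ k) (s + φ k⁻¹)) + φ k⁻¹ = H.inv (H.inv s + φ k) := by
    rw [H.inv_U _ _ hk0, hφ.inv]
    have h3 := inv_inv_add H (w := H.inv s) (v := φ k) (H.inv_ne s hsO.ne) hk0
      ((hsO.inv hφ).add k).ne
    rw [H.inv_inv, hφ.inv, sub2 h2] at h3
    rw [h3, map_add, hφ.U]
    have e5 : k⁻¹ * k⁻¹ * k = k⁻¹ := by field_simp
    have e6 := H.U_inv_left (φ k) (H.inv (H.inv s + φ k)) hk0
    rw [hφ.inv] at e6
    rw [e5, e6, add_comm (φ k⁻¹), add_assoc, h2, add_zero]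
  rw [e4, H.inv_inv, H.U_U]
  have e7 := H.U_inv_left (φ k) (H.U (s + φ k⁻¹) (H.U (φ k) (H.U (H.inv (H.inv s + φ k))
    (v (H.inv s + φ k))))) hk0
  rw [hφ.inv] at e7
  rw [e7]
  congr 1
  have h3 := H.sum s (φ k⁻¹) (H.U (φ k) (H.U (H.inv (H.inv s + φ k)) (v (H.inv s + φ k))))
    hsO.ne hki (hsO.add _).ne
  rw [h3, hφ.inv, inv_inv]
  have e8 := H.U_inv_left (φ k) (H.U (H.inv (H.inv s + φ k)) (v (H.inv s + φ k))) hk0
  rw [hφ.inv] at e8
  rw [e8, H.U_inv_right _ _ ((hsO.inv hφ).add k).ne]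

/-- The reflection. -/
def MM (H : HS A) (φ : L →+ A) (x : L) (v : A → A) : A → A :=
  fun u => H.U u (H.U (φ x⁻¹) (v (H.U (φ x) (H.inv u))))

theorem MM_eq (hφ : Part H φ) (h2 : ∀ x : A, x + x = 0) {v : A → A} (hv : v ∈ V0 φ) {x : L}
    (hx : x ≠ 0) :
    TT (φ x) (II H (TT (φ x⁻¹) (II H (TT (φ x) v)))) = MM H φ x v := by
  funext u
  by_cases hu : Out φ u
  swap
  · unfold Out at hu
    push Not at hu
    obtain ⟨l, rfl⟩ := hu
    have h3 := V0_TT (V0_II hφ (V0_TT (V0_II hφ (V0_TT hv x)) x⁻¹)) x l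
    rw [h3]
    change 0 = H.U (φ l) (H.U (φ x⁻¹) (v (H.U (φ x) (H.inv (φ l)))))
    rw [hφ.inv, hφ.U, hv, map_zero, map_zero]
  change H.U (u + φ x) (H.U (H.inv (u + φ x) + φ x⁻¹) (v (H.inv (H.inv (u + φ x) + φ x⁻¹) + φ x))) =
    H.U u (H.U (φ x⁻¹) (v (H.U (φ x) (H.inv u))))
  rw [sum_form hφ h2 hu hx, arg_form hφ h2 hu hx]
  congr 3
  rw [add_comm (φ x), add_assoc, h2, add_zero]

/-- The product of two reflections. -/
def DD (H : HS A) (φ : L →+ A) (x y : L) (v : A → A) : A → A :=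
  fun u => H.U (φ x) (H.U (φ y⁻¹) (v (H.U (φ y) (H.U (φ x⁻¹) u))))

theorem DD_eq (hφ : Part H φ) {v : A → A} (hv : v ∈ V0 φ) {x y : L} (hx : x ≠ 0) :
    MM H φ x (MM H φ y v) = DD H φ x y v := by
  funext u
  have hx0 : φ x ≠ 0 := fun h0 => hx (hφ.inj (by rw [h0, map_zero]))
  by_cases hu : u = 0
  · subst hu
    change H.U 0 _ = H.U (φ x) (H.U (φ y⁻¹) (v (H.U (φ y) (H.U (φ x⁻¹) 0))))
    rw [H.U_zero, map_zero, map_zero, V0_zero hv, map_zero, map_zero]
    rfl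
  change H.U u (H.U (φ x⁻¹) (H.U (H.U (φ x) (H.inv u)) (H.U (φ y⁻¹)
    (v (H.U (φ y) (H.inv (H.U (φ x) (H.inv u)))))))) = _
  have e6 := fun z => H.U_inv_left (φ x) z hx0
  rw [hφ.inv] at e6
  rw [H.U_U, e6, H.U_inv_right _ _ hu, H.inv_U _ _ hx0, H.inv_inv, hφ.inv]
  rfl

theorem DD_add (x y : L) (v w : A → A) : DD H φ x y (v + w) = DD H φ x y v + DD H φ x y w := by
  funext u
  change H.U (φ x) (H.U (φ y⁻¹) (v _ + w _)) = _
  rw [map_add, map_add]
  rfl

theorem DD_TT (hφ : Part H φ) {x y : L} (hx : x ≠ 0) (hy : y ≠ 0) (z : L) (v : A → A) :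
    TT (φ (x * x * (y⁻¹ * y⁻¹ * z))) (DD H φ x y v) = DD H φ x y (TT (φ z) v) := by
  funext u
  change H.U (φ x) (H.U (φ y⁻¹) (v (H.U (φ y) (H.U (φ x⁻¹) (u + φ (x * x * (y⁻¹ * y⁻¹ * z))))))) =
    H.U (φ x) (H.U (φ y⁻¹) (v (H.U (φ y) (H.U (φ x⁻¹) u) + φ z)))
  congr 4
  rw [map_add, map_add, hφ.U, hφ.U]
  congr 2
  field_simp

end Pool.Agent.HuaFd10
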