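import Mathlib
import Pool.Agent.HuaFd10.Ops

/-!
Vector fields modulo the fixed vectors: products of arbitrarily many differences do not vanish.
-/

set_option autoImplicit false

namespace Pool.Agent.HuaFd10

open Pool.Agent.HuaTop84 Pool.Agent.HuaVal Pool.Agent.HuaOne84 Pool.Agent.HuaDom91
  Pool.Agent.HuaPerf2

variable {A : Type} [AddCommGroup A] {L : Type} [Field L] {H : HS A} {φ : L →+ A}

/-- The fields fixed by the translations of `R` and by the dual translations of `R`. -/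
def WW (_hφ : Part H φ) (R : AddSubgroup L) : AddSubgroup (A → A) where
  carrier := {v | v ∈ V0 φ ∧ ∀ x ∈ R, TT (φ x) v = v ∧ TT (φ x) (II H v) = II H v}
  zero_mem' := ⟨(V0 φ).zero_mem, fun x _ => ⟨rfl, by
    funext u
    change H.U (u + φ x) 0 = H.U u 0
    rw [map_zero, map_zero]⟩⟩
  add_mem' := fun {v w} hv hw => ⟨(V0 φ).add_mem hv.1 hw.1, fun x hx => ⟨by
    rw [TT_add, (hv.2 x hx).1, (hw.2 x hx).1], by
    rw [II_add, TT_add, (hv.2 x hx).2, (hw.2 x hx).2]⟩⟩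
  neg_mem' := fun {v} hv => ⟨(V0 φ).neg_mem hv.1, fun x hx => ⟨by
    have e : -v = 0 - v := by rw [zero_sub]
    rw [e, TT_sub, (hv.2 x hx).1]
    rfl, by
    have e : -v = 0 - v := by rw [zero_sub]
    have e0 : II H (0 : A → A) = 0 := by
      funext u
      exact map_zero _
    rw [e, II_sub, TT_sub, (hv.2 x hx).2, e0]
    rfl⟩⟩

section

variable (hφ : Part H φ) {R : AddSubgroup L}

theorem WW_V0 {v : A → A} (hv : v ∈ WW hφ R) : v ∈ V0 φ := hv.1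

theorem WW_TT {v : A → A} (hv : v ∈ WW hφ R) {x : L} (hx : x ∈ R) : TT (φ x) v = v :=
  (hv.2 x hx).1

theorem WW_II {v : A → A} (hv : v ∈ WW hφ R) : II H v ∈ WW hφ R := by
  refine ⟨V0_II hφ hv.1, fun x hx => ⟨(hv.2 x hx).2, ?_⟩⟩
  rw [II_II hv.1]
  exact (hv.2 x hx).1

/-- congruence -/
def Eqv (v w : A → A) : Prop := v - w ∈ WW hφ R

theorem Eqv.refl (v : A → A) : Eqv hφ (R := R) v v := by
  unfold Eqv
  rw [sub_self]
  exact AddSubgroup.zero_mem _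

variable {hφ}

theorem Eqv.symm {v w : A → A} (h : Eqv hφ (R := R) v w) : Eqv hφ (R := R) w v := by
  have h1 := (WW hφ R).neg_mem h
  rwa [neg_sub] at h1

theorem Eqv.trans {v w z : A → A} (h : Eqv hφ (R := R) v w) (h' : Eqv hφ (R := R) w z) :
    Eqv hφ (R := R) v z := by
  have h1 := (WW hφ R).add_mem h h'
  rwa [sub_add_sub_cancel] at h1

theorem Eqv.T {v w : A → A} (h : Eqv hφ (R := R) v w) {x : L} (hx : x ∈ R) :
    Eqv hφ (R := R) (TT (φ x) v) (TT (φ x) w) := by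
  unfold Eqv at *
  rw [← TT_sub, WW_TT hφ h hx]
  exact h

theorem Eqv.I {v w : A → A} (h : Eqv hφ (R := R) v w) : Eqv hφ (R := R) (II H v) (II H w) := by
  unfold Eqv at *
  rw [← II_sub]
  exact WW_II hφ h

theorem Eqv.sub {v w v' w' : A → A} (h : Eqv hφ (R := R) v w) (h' : Eqv hφ (R := R) v' w') :
    Eqv hφ (R := R) (v - v') (w - w') := by
  have h1 := (WW hφ R).sub_mem h h'
  unfold Eqv
  have e : v - v' - (w - w') = v - w - (v' - w') := by abel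
  rw [e]
  exact h1

variable (hφ)

/-- The periods of `v` modulo the fixed vectors. -/
def SS (R : AddSubgroup L) (v : A → A) : AddSubgroup L where
  carrier := {x | x ∈ R ∧ Eqv hφ (R := R) (TT (φ x) v) v}
  zero_mem' := ⟨R.zero_mem, by
    rw [map_zero, TT_zero]
    exact Eqv.refl _ _⟩
  add_mem' := fun {x y} hx hy => ⟨R.add_mem hx.1 hy.1, by
    rw [map_add, ← TT_TT]
    exact (Eqv.T hy.2 hx.1).trans hx.2⟩
  neg_mem' := fun {x} hx => ⟨R.neg_mem hx.1, by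
    have h1 := (Eqv.T (φ := φ) hx.2 (R.neg_mem hx.1)).symm
    rw [TT_TT, ← map_add, neg_add_cancel, map_zero, TT_zero] at h1
    exact h1⟩

variable {hφ}

theorem SS_R {v : A → A} {x : L} (hx : x ∈ SS hφ R v) : x ∈ R := hx.1

theorem SS_E {v : A → A} {x : L} (hx : x ∈ SS hφ R v) : Eqv hφ (R := R) (TT (φ x) v) v := hx.2

/-- Dual periods of a translate. -/
theorem step_I (h2 : ∀ x : A, x + x = 0) {v : A → A} (hv : v ∈ V0 φ) {k y : L} (hk : k ≠ 0)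
    (hkR : k ∈ R) (hki : k⁻¹ ∈ SS hφ R (II H v)) (hky : k * k * y ∈ SS hφ R v) (hy : y ∈ R) :
    y ∈ SS hφ R (II H (TT (φ k) v)) := by
  refine ⟨hy, ?_⟩
  have hkR' := SS_R hki
  have e1 : Eqv hφ (R := R) (TT (φ k⁻¹) (II H v)) (II H v) := SS_E hki
  have e2 := e1.I
  rw [II_II hv] at e2
  have e3 := (e2.T (SS_R hky)).trans (SS_E hky)
  have e4 := ((e3.I).T hkR').trans e1
  have e5 := e4.I
  rw [II_II hv] at e5
  have e6 := (e5.T hkR).I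
  rw [← braid hφ h2 hv (y := y) hk, II_II (V0_TT (V0_II hφ (V0_TT hv k)) y)] at e6
  exact e6

theorem MM_eqv (h2 : ∀ x : A, x + x = 0) {v w : A → A} (hv : v ∈ V0 φ) (hw : w ∈ V0 φ)
    (hwv : Eqv hφ (R := R) w v) {x : L} (hx0 : x ≠ 0)
    (hx : x ∈ SS hφ R v) (hx' : x⁻¹ ∈ SS hφ R (II H v)) : Eqv hφ (R := R) (MM H φ x w) v := by
  rw [← MM_eq hφ h2 hw hx0]
  have e1 := (hwv.T (SS_R hx)).trans (SS_E hx)
  have e2 := ((e1.I).T (SS_R hx')).trans (SS_E hx')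
  have e3 := e2.I
  rw [II_II hv] at e3
  exact (e3.T (SS_R hx)).trans (SS_E hx)

theorem MM_V0 (hφ : Part H φ) {v : A → A} (hv : v ∈ V0 φ) (x : L) : MM H φ x v ∈ V0 φ := by
  intro l
  change H.U (φ l) (H.U (φ x⁻¹) (v (H.U (φ x) (H.inv (φ l))))) = 0
  rw [hφ.inv, hφ.U, hv, map_zero, map_zero]

theorem DD_eqv (h2 : ∀ x : A, x + x = 0) {v : A → A} (hv : v ∈ V0 φ) {x y : L} (hx0 : x ≠ 0)
    (hy0 : y ≠ 0) (hx : x ∈ SS hφ R v) (hx' : x⁻¹ ∈ SS hφ R (II H v))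
    (hy : y ∈ SS hφ R v) (hy' : y⁻¹ ∈ SS hφ R (II H v)) :
    Eqv hφ (R := R) (DD H φ x y v) v := by
  rw [← DD_eq hφ hv hx0]
  exact MM_eqv h2 hv (MM_V0 hφ hv y) (MM_eqv h2 hv hv (Eqv.refl hφ v) hy0 hy hy') hx0 hx hx'

theorem MM_fix (h2 : ∀ x : A, x + x = 0) {w : A → A} (hw : w ∈ WW hφ R) {x : L} (hx0 : x ≠ 0)
    (hx : x ∈ R) (hx' : x⁻¹ ∈ R) : MM H φ x w = w := by
  rw [← MM_eq hφ h2 hw.1 hx0, WW_TT hφ hw hx, WW_TT hφ (WW_II hφ hw) hx', II_II hw.1,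
    WW_TT hφ hw hx]

theorem DD_fix (h2 : ∀ x : A, x + x = 0) {w : A → A} (hw : w ∈ WW hφ R) {x y : L} (hx0 : x ≠ 0)
    (hy0 : y ≠ 0) (hx : x ∈ R) (hx' : x⁻¹ ∈ R) (hy : y ∈ R) (hy' : y⁻¹ ∈ R) :
    DD H φ x y w = w := by
  rw [← DD_eq hφ hw.1 hx0, MM_fix h2 hw hy0 hy hy', MM_fix h2 hw hx0 hx hx']

theorem DD_congr (h2 : ∀ x : A, x + x = 0) {v w : A → A} (hvw : Eqv hφ (R := R) v w) {x y : L}
    (hx0 : x ≠ 0)
    (hy0 : y ≠ 0) (hx : x ∈ R) (hx' : x⁻¹ ∈ R) (hy : y ∈ R) (hy' : y⁻¹ ∈ R) :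
    Eqv hφ (R := R) (DD H φ x y v) (DD H φ x y w) := by
  have e : v = w + (v - w) := by abel
  rw [e, DD_add, DD_fix h2 hvw hx0 hy0 hx hx' hy hy']
  unfold Eqv
  rw [add_sub_cancel_left]
  exact hvw

/-- The periods are stable under the scaling. -/
theorem SS_scale (h2 : ∀ x : A, x + x = 0) {v : A → A} (hv : v ∈ V0 φ) {x y z : L} (hx0 : x ≠ 0)
    (hy0 : y ≠ 0) (hx : x ∈ SS hφ R v) (hx' : x⁻¹ ∈ SS hφ R (II H v))
    (hy : y ∈ SS hφ R v) (hy' : y⁻¹ ∈ SS hφ R (II H v)) (hz : z ∈ SS hφ R v)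
    (hz' : x * x * (y⁻¹ * y⁻¹ * z) ∈ R) : x * x * (y⁻¹ * y⁻¹ * z) ∈ SS hφ R v := by
  refine ⟨hz', ?_⟩
  have e1 := DD_eqv (hφ := hφ) (R := R) h2 hv hx0 hy0 hx hx' hy hy'
  have e2 := (e1.T hz').symm
  rw [DD_TT hφ hx0 hy0] at e2
  have e3 := DD_congr h2 (SS_E hz) hx0 hy0 (SS_R hx) (SS_R hx') (SS_R hy) (SS_R hy')
  exact (e2.trans e3).trans e1

/-- The differences of a field fixed modulo the fixed vectors are invariant under scaling. -/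
theorem lam_scale (h2 : ∀ x : A, x + x = 0) {v : A → A} (hv : v ∈ V0 φ) {x y z : L} (hx0 : x ≠ 0)
    (hy0 : y ≠ 0) (hx : x ∈ SS hφ R v) (hx' : x⁻¹ ∈ SS hφ R (II H v))
    (hy : y ∈ SS hφ R v) (hy' : y⁻¹ ∈ SS hφ R (II H v)) (hz : z ∈ SS hφ R v)
    (hz' : x * x * (y⁻¹ * y⁻¹ * z) ∈ R) :
    TT (φ (x * x * (y⁻¹ * y⁻¹ * z))) v - v = TT (φ z) v - v := by
  have e1 := DD_eqv (hφ := hφ) (R := R) h2 hv hx0 hy0 hx hx' hy hy'
  have hw : DD H φ x y v = v + (DD H φ x y v - v) := by abel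
  set w := DD H φ x y v - v with hwdef
  have hl : TT (φ z) v = v + (TT (φ z) v - v) := by abel
  have e3 := DD_TT hφ hx0 hy0 z v
  rw [hl, DD_add, hw, TT_add, WW_TT hφ e1 hz',
    DD_fix h2 (SS_E hz) hx0 hy0 (SS_R hx) (SS_R hx') (SS_R hy) (SS_R hy')] at e3
  have e4 : TT (φ (x * x * (y⁻¹ * y⁻¹ * z))) v = v + (TT (φ z) v - v) := by
    have e5 : v + w + (TT (φ z) v - v) = v + (TT (φ z) v - v) + w := by abel
    rw [e5] at e3
    exact add_right_cancel e3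
  rw [e4]
  abel

end

end Pool.Agent.HuaFd10
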